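import Mathlib
import Pool.Agent.Lib.MP_5f557b_an.Unique

set_option autoImplicit false

/-!
A spectral self-affine measure with simple digits which does not come from a Hadamard triple.
-/

open MeasureTheory Matrix Finset
open scoped ENNReal Real InnerProductSpace

namespace Pool.Agent.Results.MP_5f557b_an.SpectralNoHadamard

/-- Every complex eigenvalue of the integer matrix `R` has modulus greater than `1`. -/
def Expanding {d : ℕ} (R : Matrix (Fin d) (Fin d) ℤ) : Prop :=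
  ∀ (z : ℂ) (v : Fin d → ℂ), v ≠ 0 → (R.map (fun a : ℤ => (a : ℂ))) *ᵥ v = z • v → 1 < ‖z‖

/-- `B` is a set of simple digits: distinct elements are incongruent modulo `R ℤ^d`. -/
def SimpleDigits {d : ℕ} (R : Matrix (Fin d) (Fin d) ℤ) (B : Finset (Fin d → ℤ)) : Prop :=
  ∀ b ∈ B, ∀ b' ∈ B, (∃ v : Fin d → ℤ, b - b' = R *ᵥ v) → b = b'

/-- `ℤ[R,B]`: the additive group generated by all `R ^ k b`, `k ≥ 0`, `b ∈ B`. -/
def orbitGroup {d : ℕ} (R : Matrix (Fin d) (Fin d) ℤ) (B : Finset (Fin d → ℤ)) :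
    AddSubgroup (Fin d → ℤ) :=
  AddSubgroup.closure {v | ∃ k : ℕ, ∃ b ∈ B, v = (R ^ k) *ᵥ b}

/-- A real vector `b` as the image of an integer vector. -/
def toReal {d : ℕ} (b : Fin d → ℤ) : Fin d → ℝ := fun i => (b i : ℝ)

/-- The map `φ_b(x) = R⁻¹ (x + b)` of `ℝ^d`. -/
noncomputable def phi {d : ℕ} (R : Matrix (Fin d) (Fin d) ℤ) (b : Fin d → ℤ) (x : Fin d → ℝ) :
    Fin d → ℝ :=
  (R.map (fun a : ℤ => (a : ℝ)))⁻¹ *ᵥ (x + toReal b)

/-- `μ` is a Borel probability measure on `ℝ^d` with `μ = (1/N) ∑_{b ∈ B} μ ∘ φ_b⁻¹`, `N = #B`. -/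
def IsSelfAffineMeasure {d : ℕ} (R : Matrix (Fin d) (Fin d) ℤ) (B : Finset (Fin d → ℤ))
    (μ : Measure (Fin d → ℝ)) : Prop :=
  IsProbabilityMeasure μ ∧ μ = ((B.card : ℝ≥0∞)⁻¹) • ∑ b ∈ B, μ.map (phi R b)

/-- `μ` is spectral: for some `Λ ⊆ ℝ^d` the exponentials `exp(2πi⟨l,x⟩)`, `l ∈ Λ`, form an
orthonormal (Hilbert) basis of `L²(μ)`. -/
def IsSpectral {d : ℕ} (μ : Measure (Fin d → ℝ)) : Prop :=
  ∃ (Λ : Set (Fin d → ℝ)) (e : HilbertBasis Λ ℂ (Lp ℂ 2 μ)), ∀ l : Λ,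
    (e l : (Fin d → ℝ) → ℂ) =ᵐ[μ]
      fun x => Complex.exp (2 * π * Complex.I * ((∑ i, (l : Fin d → ℝ) i * x i : ℝ) : ℂ))

/-- The matrix `N^{-1/2} (exp(2πi⟨R⁻¹ b, l⟩))`, `b ∈ B`, `l ∈ L`, `N = #B`. -/
noncomputable def hadamardMatrix {d : ℕ} (R : Matrix (Fin d) (Fin d) ℤ)
    (B L : Finset (Fin d → ℤ)) : Matrix B L ℂ := fun b l =>
  ((1 / Real.sqrt (B.card : ℝ) : ℝ) : ℂ) * Complex.exp (2 * π * Complex.I *
    ((∑ i, ((R.map (fun a : ℤ => (a : ℝ)))⁻¹ *ᵥ toReal b.1) i * toReal l.1 i : ℝ) : ℂ))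

/-- `(R, B, L)` is a Hadamard triple: `#L = #B` and the above matrix `H` is unitary. -/
def IsHadamardTriple {d : ℕ} (R : Matrix (Fin d) (Fin d) ℤ) (B L : Finset (Fin d → ℤ)) : Prop :=
  L.card = B.card ∧
    hadamardMatrix R B L * (hadamardMatrix R B L)ᴴ = 1 ∧
    (hadamardMatrix R B L)ᴴ * hadamardMatrix R B L = 1

/-- The exponential with frequency `l`. -/
noncomputable def ex {d : ℕ} (l x : Fin d → ℝ) : ℂ :=
  Complex.exp (2 * π * Complex.I * ((∑ i, l i * x i : ℝ) : ℂ))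

lemma continuous_ex {d : ℕ} (l : Fin d → ℝ) : Continuous (ex l) := by
  unfold ex
  fun_prop

lemma norm_ex {d : ℕ} (l x : Fin d → ℝ) : ‖ex l x‖ = 1 := by
  have : (2 * π * Complex.I * ((∑ i, l i * x i : ℝ) : ℂ)) =
      ((2 * π * (∑ i, l i * x i) : ℝ) : ℂ) * Complex.I := by
    push_cast; ring
  rw [ex, this, Complex.norm_exp_ofReal_mul_I]

lemma memLp_ex {d : ℕ} (μ : Measure (Fin d → ℝ)) [IsProbabilityMeasure μ] (l : Fin d → ℝ) :
    MemLp (ex l) 2 μ := by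
  refine MemLp.of_bound (continuous_ex l).measurable.aestronglyMeasurable 1 ?_
  exact Filter.Eventually.of_forall fun x => (norm_ex l x).le

lemma conj_ex {d : ℕ} (l x : Fin d → ℝ) : (starRingEnd ℂ) (ex l x) = ex (-l) x := by
  rw [ex, ex, ← Complex.exp_conj]
  congr 1
  simp only [map_mul, Complex.conj_ofReal, Complex.conj_I, Pi.neg_apply, neg_mul,
    Finset.sum_neg_distrib, Complex.ofReal_neg, map_ofNat]
  ring

lemma ex_add {d : ℕ} (l l' x : Fin d → ℝ) : ex l x * ex l' x = ex (l + l') x := by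
  rw [ex, ex, ex, ← Complex.exp_add]
  congr 1
  simp only [Pi.add_apply, add_mul, Finset.sum_add_distrib]
  push_cast
  ring

/-- an orthonormal and complete family of exponentials gives a Hilbert basis -/
lemma spectral_of {d : ℕ} (μ : Measure (Fin d → ℝ)) [IsProbabilityMeasure μ]
    (Λ : Set (Fin d → ℝ))
    (h1 : ∀ l ∈ Λ, ∀ l' ∈ Λ, l ≠ l' → ∫ x, ex (l - l') x ∂μ = 0)
    (h2 : ∀ f : (Fin d → ℝ) → ℂ, MemLp f 2 μ → (∀ l ∈ Λ, ∫ x, f x * ex (-l) x ∂μ = 0) →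
      f =ᵐ[μ] 0) : IsSpectral μ := by
  let v : Λ → Lp ℂ 2 μ := fun l => (memLp_ex μ l.1).toLp (ex l.1)
  have hv : ∀ l : Λ, (v l : (Fin d → ℝ) → ℂ) =ᵐ[μ] ex l.1 := fun l => (memLp_ex μ l.1).coeFn_toLp
  have hinner : ∀ (l : Λ) (g : Lp ℂ 2 μ), inner ℂ (v l) g = ∫ x, g x * ex (-l.1) x ∂μ := by
    intro l g
    rw [L2.inner_def]
    refine integral_congr_ae ?_
    filter_upwards [hv l] with x hx
    rw [hx, RCLike.inner_apply, conj_ex]
  have horth : Orthonormal ℂ v := by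
    rw [orthonormal_iff_ite]
    intro l l'
    rw [hinner]
    have h3 : ∫ x, (v l' : (Fin d → ℝ) → ℂ) x * ex (-l.1) x ∂μ = ∫ x, ex (l'.1 - l.1) x ∂μ := by
      refine integral_congr_ae ?_
      filter_upwards [hv l'] with x hx
      rw [hx, ex_add, sub_eq_add_neg]
    rw [h3]
    split_ifs with hll
    · subst hll
      simp [ex]
    · exact h1 _ l'.2 _ l.2 fun h => hll (Subtype.ext h.symm)
  have hcomp : (Submodule.span ℂ (Set.range v))ᗮ = ⊥ := by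
    rw [Submodule.eq_bot_iff]
    intro g hg
    rw [Submodule.mem_orthogonal] at hg
    have h4 : (g : (Fin d → ℝ) → ℂ) =ᵐ[μ] 0 := by
      refine h2 _ (Lp.memLp g) fun l hl => ?_
      rw [← hinner ⟨l, hl⟩ g]
      exact hg _ (Submodule.subset_span ⟨⟨l, hl⟩, rfl⟩)
    exact (Lp.eq_zero_iff_ae_eq_zero).mpr h4
  refine ⟨Λ, HilbertBasis.mkOfOrthogonalEqBot horth hcomp, fun l => ?_⟩
  rw [HilbertBasis.coe_mkOfOrthogonalEqBot]
  exact hv l

lemma combine (s t : ℝ) :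
    (starRingEnd ℂ) (Complex.exp (2 * π * Complex.I * (t : ℂ))) * Complex.exp
      (2 * π * Complex.I * (s : ℂ)) = Pool.Agent.Lib.MP_5f557b_an.ee (s - t) := by
  rw [← Complex.exp_conj, ← Complex.exp_add, Pool.Agent.Lib.MP_5f557b_an.ee]
  congr 1
  simp only [map_mul, Complex.conj_ofReal, Complex.conj_I, map_ofNat, Complex.ofReal_sub]
  ring

/-- the columns of the matrix of a Hadamard triple are orthogonal -/
lemma hadamard_orth {d : ℕ} (R : Matrix (Fin d) (Fin d) ℤ) (B L : Finset (Fin d → ℤ))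
    (hB : B.card ≠ 0) (h : IsHadamardTriple R B L) (l : Fin d → ℤ) (hl : l ∈ L)
    (l' : Fin d → ℤ) (hl' : l' ∈ L) (hne : l ≠ l') :
    ∑ b ∈ B, Pool.Agent.Lib.MP_5f557b_an.ee (∑ i,
      ((R.map (Int.cast : ℤ → ℝ))⁻¹ *ᵥ (fun j => (b j : ℝ))) i * ((l i : ℝ) - (l' i : ℝ))) = 0 := by
  obtain ⟨-, -, hH⟩ := h
  have h1 := congrFun (congrFun hH ⟨l', hl'⟩) ⟨l, hl⟩
  rw [Matrix.one_apply_ne (fun h => hne (congrArg Subtype.val h).symm), Matrix.mul_apply] at h1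
  have hc : ((1 / Real.sqrt (B.card : ℝ) : ℝ) : ℂ) ≠ 0 := by
    have h0 : (0 : ℝ) < (B.card : ℝ) := by exact_mod_cast Nat.pos_of_ne_zero hB
    have : (0 : ℝ) < Real.sqrt (B.card : ℝ) := Real.sqrt_pos.mpr h0
    exact_mod_cast (one_div_pos.mpr this).ne'
  have h2 : ∀ b : B, ((hadamardMatrix R B L)ᴴ ⟨l', hl'⟩ b) * (hadamardMatrix R B L b ⟨l, hl⟩) =
      (((1 / Real.sqrt (B.card : ℝ) : ℝ) : ℂ) * ((1 / Real.sqrt (B.card : ℝ) : ℝ) : ℂ)) *
      Pool.Agent.Lib.MP_5f557b_an.ee (∑ i,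
        ((R.map (Int.cast : ℤ → ℝ))⁻¹ *ᵥ (fun j => (b.1 j : ℝ))) i *
          ((l i : ℝ) - (l' i : ℝ))) := by
    intro b
    have h6 : ∑ i, ((R.map (Int.cast : ℤ → ℝ))⁻¹ *ᵥ (fun j => (b.1 j : ℝ))) i *
          ((l i : ℝ) - (l' i : ℝ)) =
        ∑ i, ((R.map (fun a : ℤ => (a : ℝ)))⁻¹ *ᵥ toReal b.1) i * toReal l i -
        ∑ i, ((R.map (fun a : ℤ => (a : ℝ)))⁻¹ *ᵥ toReal b.1) i * toReal l' i := by
      rw [← Finset.sum_sub_distrib]
      exact Finset.sum_congr rfl fun i _ => mul_sub _ _ _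
    rw [Matrix.conjTranspose_apply, h6]
    simp only [hadamardMatrix, star_mul', RCLike.star_def, Complex.conj_ofReal]
    rw [mul_mul_mul_comm, combine]
  rw [Finset.sum_congr rfl fun b _ => h2 b, ← Finset.mul_sum] at h1
  have h5 := (mul_eq_zero.mp h1).resolve_left (mul_ne_zero hc hc)
  exact (Finset.sum_coe_sort B fun b => Pool.Agent.Lib.MP_5f557b_an.ee (∑ i,
        ((R.map (Int.cast : ℤ → ℝ))⁻¹ *ᵥ (fun j => (b j : ℝ))) i *
          ((l i : ℝ) - (l' i : ℝ)))).symm.trans h5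

/-- There are `d ≥ 1`, an expanding integer matrix `R` and a set `B` of simple digits with
`2 ≤ #B < |det R|`, `0 ∈ B`, `ℤ[R,B] = ℤ^d` such that the self-affine measure `μ(R,B)` (which exists
and is unique) is spectral, but no `L ⊆ ℤ^d` makes `(R, B, L)` a Hadamard triple. -/
theorem result : ∃ (d : ℕ) (R : Matrix (Fin d) (Fin d) ℤ) (B : Finset (Fin d → ℤ)),
    1 ≤ d ∧ Expanding R ∧ SimpleDigits R B ∧ 2 ≤ B.card ∧ (B.card : ℤ) < |R.det| ∧
    (0 : Fin d → ℤ) ∈ B ∧ orbitGroup R B = ⊤ ∧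
    (∃! μ : Measure (Fin d → ℝ), IsSelfAffineMeasure R B μ) ∧
    (∀ μ : Measure (Fin d → ℝ), IsSelfAffineMeasure R B μ → IsSpectral μ) ∧
    ∀ L : Finset (Fin d → ℤ), ¬ IsHadamardTriple R B L := by
  obtain ⟨μ, hprob, hself, horth, hcompl⟩ := Pool.Agent.Lib.MP_5f557b_an.exists_main
  have hphi : phi Pool.Agent.Lib.MP_5f557b_an.RR = Pool.Agent.Lib.MP_5f557b_an.aff := rfl
  have hiff : ∀ ν : Measure (Fin 14 → ℝ), IsSelfAffineMeasure
      Pool.Agent.Lib.MP_5f557b_an.RR Pool.Agent.Lib.MP_5f557b_an.BB ν ↔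
      (IsProbabilityMeasure ν ∧ ν = ((Pool.Agent.Lib.MP_5f557b_an.BB.card : ℝ≥0∞)⁻¹) •
        ∑ b ∈ Pool.Agent.Lib.MP_5f557b_an.BB, ν.map (Pool.Agent.Lib.MP_5f557b_an.aff b)) := by
    intro ν
    rw [IsSelfAffineMeasure, hphi]
  have huniq : ∀ ν : Measure (Fin 14 → ℝ), IsSelfAffineMeasure
      Pool.Agent.Lib.MP_5f557b_an.RR Pool.Agent.Lib.MP_5f557b_an.BB ν → ν = μ := by
    intro ν hν
    obtain ⟨hν1, hν2⟩ := (hiff ν).mp hν
    exact Pool.Agent.Lib.MP_5f557b_an.selfaff_unique ν μ hν2 hself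
  have hex : ∃! μ : Measure (Fin 14 → ℝ), IsSelfAffineMeasure
      Pool.Agent.Lib.MP_5f557b_an.RR Pool.Agent.Lib.MP_5f557b_an.BB μ :=
    ⟨μ, (hiff μ).mpr ⟨hprob, hself⟩, huniq⟩
  have hspec : IsSpectral μ := by
    refine spectral_of μ Pool.Agent.Lib.MP_5f557b_an.Lam ?_ ?_
    · intro l hl l' hl' hne
      exact (horth l hl l' hl').2 hne
    · intro f hf h
      refine hcompl f hf fun l hl => ?_
      rw [← h l hl]
      congr 1
      funext x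
      congr 1
      rw [Pool.Agent.Lib.MP_5f557b_an.ee, ex]
      congr 3
      simp only [Pi.neg_apply, neg_mul, Finset.sum_neg_distrib]
  refine ⟨14, Pool.Agent.Lib.MP_5f557b_an.RR, Pool.Agent.Lib.MP_5f557b_an.BB, by norm_num,
    ?_, ?_, ?_, ?_, Pool.Agent.Lib.MP_5f557b_an.zero_mem_BB,
    Pool.Agent.Lib.MP_5f557b_an.closure_eq_top, hex, ?_, ?_⟩
  · intro z v hv h
    refine Pool.Agent.Lib.MP_5f557b_an.RR_expanding z ?_
    rw [Polynomial.IsRoot.def, Matrix.eval_charpoly]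
    refine Matrix.exists_mulVec_eq_zero_iff.mp ⟨v, hv, ?_⟩
    have h' : (Pool.Agent.Lib.MP_5f557b_an.RR.map (Int.cast : ℤ → ℂ)) *ᵥ v = z • v := h
    rw [Matrix.sub_mulVec, h', sub_eq_zero]
    funext m
    simp [Matrix.scalar_apply, Matrix.mulVec_diagonal]
  · intro b hb b' hb' hv
    obtain ⟨v, hv⟩ := hv
    obtain ⟨s, rfl⟩ := (Pool.Agent.Lib.MP_5f557b_an.mem_BB b).mp hb
    obtain ⟨s', rfl⟩ := (Pool.Agent.Lib.MP_5f557b_an.mem_BB b').mp hb'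
    exact congrArg _ (Pool.Agent.Lib.MP_5f557b_an.bb_simple v hv.symm)
  · rw [Pool.Agent.Lib.MP_5f557b_an.card_BB]
    norm_num
  · rw [Pool.Agent.Lib.MP_5f557b_an.card_BB, Pool.Agent.Lib.MP_5f557b_an.RR_det_abs]
    norm_num
  · intro ν hν
    rw [huniq ν hν]
    exact hspec
  · intro L hL
    refine Pool.Agent.Lib.MP_5f557b_an.no_L L hL.1 fun l hl l' hl' hne => ?_
    have hB : Pool.Agent.Lib.MP_5f557b_an.BB.card ≠ 0 := by
      rw [Pool.Agent.Lib.MP_5f557b_an.card_BB]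
      norm_num
    exact hadamard_orth _ _ _ hB hL l hl l' hl' hne

end Pool.Agent.Results.MP_5f557b_an.SpectralNoHadamard
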